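import Pool.Agent.MP_3ce0a0_al.Q2T15.Defs

/-! Basic formulas for standard factors, multitwists and twists. -/

namespace Pool.Agent.MP_3ce0a0_al.Q2T15

open Pool.Agent.MP_3ce0a0_al.H79

variable {α : Type}

/-! ### Standard factors -/

theorem std_mono {I J : Set α} (h : I ⊆ J) : std I ≤ std J :=
  Subgroup.closure_mono (Set.image_mono h)

theorem mem_std_iff {I : Set α} {w : FreeGroup α} : w ∈ std I ↔ ret I w = w :=
  ⟨ret_eq_self, fun h => h ▸ ret_mem I w⟩

theorem ret_ret (I J : Set α) (w : FreeGroup α) : ret I (ret J w) = ret (I ∩ J) w := by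
  have : (ret I).comp (ret J) = ret (I ∩ J) := by
    ext x
    by_cases hJ : x ∈ J
    · by_cases hI : x ∈ I
      · simp [ret_of_mem hJ, ret_of_mem hI, ret_of_mem (show x ∈ I ∩ J from ⟨hI, hJ⟩)]
      · simp [ret_of_mem hJ, ret_of_not_mem hI,
          ret_of_not_mem (show x ∉ I ∩ J from fun h => hI h.1)]
    · simp [ret_of_not_mem hJ, ret_of_not_mem (show x ∉ I ∩ J from fun h => hJ h.2)]
  exact DFunLike.congr_fun this w

theorem std_inter (I J : Set α) : std (I ∩ J) = std I ⊓ std J := by
  refine le_antisymm (le_inf (std_mono Set.inter_subset_left)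
    (std_mono Set.inter_subset_right)) ?_
  rintro w ⟨h1, h2⟩
  rw [mem_std_iff, ← ret_ret, ret_eq_self h2, ret_eq_self h1]

theorem std_empty : std (∅ : Set α) = ⊥ := by
  simp [std]

theorem of_mem_std_iff {I : Set α} {x : α} : FreeGroup.of x ∈ std I ↔ x ∈ I := by
  refine ⟨fun h => ?_, of_mem_std⟩
  by_contra hx
  have h1 := ret_eq_self h
  rw [ret_of_not_mem hx] at h1
  exact FreeGroup.of_ne_one x h1.symm

/-- A word in the letters of `I` does not contain a letter outside `I`. -/
theorem mem_std_compl {I : Set α} {y : α} (hy : y ∉ I) {b : FreeGroup α} (hb : b ∈ std I) :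
    b ∈ std ({y}ᶜ : Set α) :=
  std_mono (Set.subset_compl_singleton_iff.2 hy) hb

theorem of_mem_std_compl {x y : α} (h : x ≠ y) : FreeGroup.of x ∈ std ({y}ᶜ : Set α) :=
  of_mem_std h

theorem aut_ext {f g : MulAut (FreeGroup α)}
    (h : ∀ x, f (FreeGroup.of x) = g (FreeGroup.of x)) : f = g := by
  have : f.toMonoidHom = g.toMonoidHom := FreeGroup.ext_hom _ _ h
  ext w
  exact DFunLike.congr_fun this w

/-- An automorphism fixing the letters of `I` fixes `std I`. -/
theorem aut_fix_std {I : Set α} {f : MulAut (FreeGroup α)}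
    (h : ∀ x ∈ I, f (FreeGroup.of x) = FreeGroup.of x) {w : FreeGroup α} (hw : w ∈ std I) :
    f w = w :=
  eq_on_std (f := f.toMonoidHom) (g := MonoidHom.id _) h hw

theorem aut_mem_std {I J : Set α} {f : MulAut (FreeGroup α)}
    (h : ∀ x ∈ I, f (FreeGroup.of x) ∈ std J) {w : FreeGroup α} (hw : w ∈ std I) :
    f w ∈ std J :=
  map_mem_of_std (f := f.toMonoidHom) h hw

/-! ### Multitwists -/

theorem multi_apply (I : Set α) (β : α × Bool → FreeGroup α) (w : FreeGroup α) :
    multi I β w = multiEnd I β w := rfl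

theorem multi_of_mem {I : Set α} (β : α × Bool → FreeGroup α) {x : α} (hx : x ∈ I) :
    multi I β (FreeGroup.of x) = FreeGroup.of x := multiEnd_of_mem β hx

theorem multi_of_not_mem {I : Set α} (β : α × Bool → FreeGroup α) {x : α} (hx : x ∉ I) :
    multi I β (FreeGroup.of x)
      = (ret I (β (x, false)))⁻¹ * FreeGroup.of x * ret I (β (x, true)) :=
  multiEnd_of_not_mem β hx

theorem multi_std {I : Set α} (β : α × Bool → FreeGroup α) {w : FreeGroup α}
    (hw : w ∈ std I) : multi I β w = w := multiEnd_std β hw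

/-- The formula on a letter outside `I` when the values lie in `std I`. -/
theorem multi_of_std {I : Set α} {β : α × Bool → FreeGroup α} (hβ : ∀ h, β h ∈ std I) {x : α}
    (hx : x ∉ I) :
    multi I β (FreeGroup.of x) = (β (x, false))⁻¹ * FreeGroup.of x * β (x, true) := by
  rw [multi_of_not_mem β hx, ret_eq_self (hβ _), ret_eq_self (hβ _)]

/-! ### Twists -/

theorem tw_of_ne (h : α × Bool) (b : FreeGroup α) {x : α} (hx : x ≠ h.1) :
    tw h b (FreeGroup.of x) = FreeGroup.of x :=
  multi_of_mem _ (show x ∈ ({h.1}ᶜ : Set α) from hx)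

theorem tw_std (h : α × Bool) (b : FreeGroup α) {w : FreeGroup α}
    (hw : w ∈ std ({h.1}ᶜ : Set α)) : tw h b w = w := multi_std _ hw

theorem tw_true' (y : α) (b : FreeGroup α) :
    tw (y, true) b (FreeGroup.of y) = FreeGroup.of y * ret {y}ᶜ b := by
  classical
  have := multi_of_not_mem (I := ({y}ᶜ : Set α)) (x := y)
  simp only [tw, MonoidHom.comp_apply, MonoidHom.mulSingle_apply]
  rw [this _ (by simp)]
  simp

theorem tw_false' (y : α) (b : FreeGroup α) :
    tw (y, false) b (FreeGroup.of y) = (ret {y}ᶜ b)⁻¹ * FreeGroup.of y := by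
  classical
  have := multi_of_not_mem (I := ({y}ᶜ : Set α)) (x := y)
  simp only [tw, MonoidHom.comp_apply, MonoidHom.mulSingle_apply]
  rw [this _ (by simp)]
  simp

theorem tw_true {y : α} {b : FreeGroup α} (hb : b ∈ std ({y}ᶜ : Set α)) :
    tw (y, true) b (FreeGroup.of y) = FreeGroup.of y * b := by
  rw [tw_true', ret_eq_self hb]

theorem tw_false {y : α} {b : FreeGroup α} (hb : b ∈ std ({y}ᶜ : Set α)) :
    tw (y, false) b (FreeGroup.of y) = b⁻¹ * FreeGroup.of y := by
  rw [tw_false', ret_eq_self hb]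

theorem tw_ret (h : α × Bool) (b : FreeGroup α) : tw h (ret {h.1}ᶜ b) = tw h b := by
  obtain ⟨y, s⟩ := h
  refine aut_ext fun x => ?_
  by_cases hx : x = y
  · subst hx
    cases s
    · rw [tw_false', tw_false', ret_eq_self (ret_mem _ _)]
    · rw [tw_true', tw_true', ret_eq_self (ret_mem _ _)]
  · rw [tw_of_ne _ _ hx, tw_of_ne _ _ hx]

open Classical in
/-- A twist is the multitwist of a function supported at one label. -/
theorem multi_mulSingle {I : Set α} {h : α × Bool} (hh : h.1 ∉ I) {b : FreeGroup α}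
    (hb : b ∈ std I) : multi I (Pi.mulSingle h b) = tw h b := by
  obtain ⟨y, s⟩ := h
  have hb' := mem_std_compl hh hb
  refine aut_ext fun x => ?_
  by_cases hx : x = y
  · subst hx
    rw [multi_of_not_mem _ hh]
    cases s
    · rw [tw_false hb']
      simp [ret_eq_self hb]
    · rw [tw_true hb']
      simp [ret_eq_self hb]
  · rw [tw_of_ne _ _ hx]
    by_cases hI : x ∈ I
    · exact multi_of_mem _ hI
    · rw [multi_of_not_mem _ hI, Pi.mulSingle_eq_of_ne (fun e => hx (congrArg Prod.fst e)),
        Pi.mulSingle_eq_of_ne (fun e => hx (congrArg Prod.fst e))]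
      simp

/-- A twist by a word in `std I` of a letter outside `I` commutes with another such twist. -/
theorem tw_commute {I : Set α} {h k : α × Bool} (hne : h ≠ k) (hh : h.1 ∉ I) (hk : k.1 ∉ I)
    {b c : FreeGroup α} (hb : b ∈ std I) (hc : c ∈ std I) : Commute (tw h b) (tw k c) := by
  classical
  rw [← multi_mulSingle hh hb, ← multi_mulSingle hk hc]
  exact (Pi.mulSingle_commute (f := fun _ : α × Bool => FreeGroup α) hne b c).map (multi I)

theorem tau_commute {I : Set α} {h k : α × Bool} (hne : h ≠ k) (hh : h.1 ∉ I) (hk : k.1 ∉ I)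
    {b c : FreeGroup α} (hb : b ∈ std I) (hc : c ∈ std I) : Commute (tau h b) (tau k c) :=
  (tw_commute hne hh hk hb hc).map (mkOut _)

/-- A twist preserves a standard factor that contains the twisting word. -/
theorem tw_mem_std {I : Set α} (h : α × Bool) {b : FreeGroup α} (hb : b ∈ std I)
    {w : FreeGroup α} (hw : w ∈ std I) : tw h b w ∈ std I := by
  obtain ⟨y, s⟩ := h
  have hr : ret {y}ᶜ b ∈ std I := by
    rw [← ret_eq_self hb, ret_ret]
    exact std_mono Set.inter_subset_right (ret_mem _ _)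
  refine aut_mem_std (fun x hx => ?_) hw
  by_cases hxy : x = y
  · subst hxy
    cases s
    · rw [tw_false']
      exact mul_mem (inv_mem hr) (of_mem_std hx)
    · rw [tw_true']
      exact mul_mem (of_mem_std hx) hr
  · rw [tw_of_ne _ _ hxy]
    exact of_mem_std hx

/-- (G4), general form: `γ` fixes the letter of `h` and sends the other letters to words
without it. -/
theorem conj_tw {γ : MulAut (FreeGroup α)} {h : α × Bool}
    (h1 : γ (FreeGroup.of h.1) = FreeGroup.of h.1)
    (h2 : ∀ z, z ≠ h.1 → γ (FreeGroup.of z) ∈ std ({h.1}ᶜ : Set α))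
    {b : FreeGroup α} (hb : b ∈ std ({h.1}ᶜ : Set α)) :
    γ * tw h b * γ⁻¹ = tw h (γ b) := by
  obtain ⟨y, s⟩ := h
  have hγb : γ b ∈ std ({y}ᶜ : Set α) := aut_mem_std (fun x hx => h2 x hx) hb
  rw [mul_inv_eq_iff_eq_mul]
  refine aut_ext fun x => ?_
  rw [MulAut.mul_apply, MulAut.mul_apply]
  by_cases hx : x = y
  · subst hx
    simp only at h1
    rw [h1]
    cases s
    · rw [tw_false hb, tw_false hγb, map_mul, map_inv, h1]
    · rw [tw_true hb, tw_true hγb, map_mul, h1]
  · rw [tw_of_ne _ _ hx, tw_std _ _ (h2 x hx)]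

/-- A twist by a word without `x` of a letter other than `x` satisfies the hypotheses of (G4). -/
theorem tw_conj_tw {h k : α × Bool} (hne : h.1 ≠ k.1) {c : FreeGroup α}
    (hc : c ∈ std ({h.1}ᶜ : Set α)) {b : FreeGroup α} (hb : b ∈ std ({h.1}ᶜ : Set α)) :
    tw k c * tw h b * (tw k c)⁻¹ = tw h (tw k c b) :=
  conj_tw (tw_of_ne _ _ hne) (fun _ hz => tw_mem_std k hc (of_mem_std hz)) hb

/-! ### The projection to `Out` -/

theorem mkOut_surjective (G : Type) [Group G] : Function.Surjective (mkOut G) :=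
  QuotientGroup.mk'_surjective _

theorem mkOut_eq_one {G : Type} [Group G] {f : MulAut G} :
    mkOut G f = 1 ↔ ∃ g : G, MulAut.conj g = f := by
  rw [mkOut, QuotientGroup.mk'_apply, QuotientGroup.eq_one_iff]
  rfl

theorem mkOut_conj {G : Type} [Group G] (g : G) : mkOut G (MulAut.conj g) = 1 :=
  mkOut_eq_one.2 ⟨g, rfl⟩

theorem mkOut_eq_iff {G : Type} [Group G] {f f' : MulAut G} :
    mkOut G f = mkOut G f' ↔ ∃ g : G, f = MulAut.conj g * f' := by
  rw [← mul_inv_eq_one, ← map_inv, ← map_mul, mkOut_eq_one]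
  exact exists_congr fun g => by rw [eq_comm, mul_inv_eq_iff_eq_mul]

theorem tau_apply (h : α × Bool) (b : FreeGroup α) : tau h b = mkOut _ (tw h b) := rfl

theorem multiO_apply (I : Set α) (β : α × Bool → FreeGroup α) :
    multiO I β = mkOut _ (multi I β) := rfl

/-- An element commuting with two different letters is trivial. -/
theorem eq_one_of_commute_two {p q : α} (hpq : p ≠ q) {g : FreeGroup α}
    (hp : g * FreeGroup.of p * g⁻¹ = FreeGroup.of p)
    (hq : g * FreeGroup.of q * g⁻¹ = FreeGroup.of q) : g = 1 := by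
  classical
  by_contra hg
  have key : ∀ r : α, g * FreeGroup.of r * g⁻¹ = FreeGroup.of r →
      ∃ s, (g.toWord).head? = some (r, s) := by
    intro r hr
    have hc : g * FreeGroup.of r = FreeGroup.of r * g := by
      rw [← mul_inv_eq_iff_eq_mul, hr]
    obtain ⟨a, L, hL⟩ : ∃ a L, g.toWord = a :: L := by
      cases hw : g.toWord with
      | nil => exact absurd (FreeGroup.toWord_eq_nil_iff.1 hw) hg
      | cons a L => exact ⟨a, L, rfl⟩
    by_contra hne
    push Not at hne
    have ha : a.1 ≠ r := fun e => hne a.2 (by rw [hL, ← e]; rfl)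
    have hred : FreeGroup.IsReduced g.toWord := FreeGroup.isReduced_toWord
    have h1 : (FreeGroup.of r * g).toWord = (r, true) :: g.toWord := by
      have : FreeGroup.of r * g = FreeGroup.mk ((r, true) :: g.toWord) := by
        conv_lhs => rw [← FreeGroup.mk_toWord (x := g)]
        rw [FreeGroup.of, FreeGroup.mul_mk]
        rfl
      rw [this, FreeGroup.toWord_mk]
      refine FreeGroup.IsReduced.reduce_eq ?_
      rw [hL] at hred ⊢
      rw [FreeGroup.isReduced_cons_cons]
      exact ⟨fun e => absurd e.symm ha, hred⟩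
    have h2 : g * FreeGroup.of r = FreeGroup.mk (g.toWord ++ [(r, true)]) := by
      conv_lhs => rw [← FreeGroup.mk_toWord (x := g)]
      rw [FreeGroup.of, FreeGroup.mul_mk]
    have h3 : FreeGroup.reduce (g.toWord ++ [(r, true)]) = (r, true) :: g.toWord := by
      rw [← h1, ← hc, h2, FreeGroup.toWord_mk]
    have h4 : FreeGroup.Red (g.toWord ++ [(r, true)]) ((r, true) :: g.toWord) :=
      h3 ▸ FreeGroup.reduce.red
    have h5 := h4.sublist
    have h6 := h5.eq_of_length (by simp)
    rw [hL] at h6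
    exact ha (by rw [← (List.cons.inj h6).1])
  obtain ⟨s, hs⟩ := key p hp
  obtain ⟨s', hs'⟩ := key q hq
  rw [hs] at hs'
  exact hpq (congrArg Prod.fst (Option.some.inj hs'))

/-- An inner automorphism fixing two different letters is trivial. -/
theorem eq_one_of_mkOut {p q : α} (hpq : p ≠ q) {f : MulAut (FreeGroup α)}
    (hp : f (FreeGroup.of p) = FreeGroup.of p) (hq : f (FreeGroup.of q) = FreeGroup.of q)
    (hf : mkOut _ f = 1) : f = 1 := by
  obtain ⟨g, rfl⟩ := mkOut_eq_one.1 hf
  rw [eq_one_of_commute_two hpq hp hq, map_one]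

end Pool.Agent.MP_3ce0a0_al.Q2T15
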