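import Pool.Agent.MP_3ce0a0_al.Q2T15.Defs

/-! Property (*) for central elements of the commutator subgroup, by transfer. -/

namespace Pool.Agent.MP_3ce0a0_al.Q2T15

variable {C : Type} [Group C]

theorem real_pow_eq_one {x : Multiplicative ℝ} {k : ℕ} (hk : k ≠ 0) (h : x ^ k = 1) : x = 1 := by
  have h1 : (k : ℝ) * Multiplicative.toAdd x = 0 := by
    have := congrArg Multiplicative.toAdd h
    simpa using this
  have h2 : Multiplicative.toAdd x = 0 :=
    (mul_eq_zero.1 h1).resolve_left (by exact_mod_cast hk)
  exact Multiplicative.toAdd.injective h2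

/-- Transfer: a central element of the commutator subgroup has property (*). -/
theorem star_of_central {t : C} (hc : ∀ g, Commute g t) (ht : t ∈ commutator C) : Star t := by
  intro H hH f j h
  have hcj : ∀ g, Commute g (t ^ j) := fun g => (hc g).zpow_right j
  have key : ∀ (k : ℕ) (g₀ : C), g₀⁻¹ * (t ^ j) ^ k * g₀ ∈ H →
      g₀⁻¹ * (t ^ j) ^ k * g₀ = (t ^ j) ^ k := by
    intro k g₀ _
    rw [mul_assoc, ← ((hcj g₀).pow_right k).eq, inv_mul_cancel_left]
  have h1 := MonoidHom.transfer_eq_pow f (t ^ j) key
  have h2 : MonoidHom.transfer f (t ^ j) = 1 := by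
    have : commutator C ≤ (MonoidHom.transfer f).ker := Abelianization.commutator_subset_ker _
    exact this (zpow_mem ht j)
  rw [h2] at h1
  have h3 : f ⟨t ^ j, h⟩ ^ H.index = 1 := by
    rw [← map_pow, h1]
    rfl
  exact real_pow_eq_one hH.index_ne_zero h3

/-- The working form of (*): `π : Z → C` has finite index range, `f` is a real character of `Z`
killing the kernel of `π`; then `f` kills every `z` mapping to a power of `t`. -/
theorem Star.apply {t : C} (hs : Star t) {Z : Type*} [Group Z] (π : Z →* C)
    (hπ : π.range.FiniteIndex) (f : Z →* Multiplicative ℝ) (hker : ∀ z, π z = 1 → f z = 1)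
    {z : Z} {j : ℤ} (hz : π z = t ^ j) : f z = 1 := by
  have hle : π.rangeRestrict.ker ≤ f.ker := by
    intro w hw
    exact hker w (congrArg Subtype.val hw)
  let g : π.range →* Multiplicative ℝ :=
    π.rangeRestrict.liftOfSurjective π.rangeRestrict_surjective ⟨f, hle⟩
  have hg : ∀ w, g (π.rangeRestrict w) = f w := fun w =>
    MonoidHom.liftOfRightInverse_comp_apply _ _ _ ⟨f, hle⟩ w
  have hmem : t ^ j ∈ π.range := ⟨z, hz⟩
  have := hs π.range hπ g j hmem
  rw [← hg z, ← this]
  congr 1
  exact Subtype.ext hz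

/-- (*) pulls back along an injective homomorphism with finite index range, to any element
mapping to a power of `t`. -/
theorem Star.comap {t : C} (hs : Star t) {D : Type} [Group D] (π : D →* C)
    (hinj : Function.Injective π) (hπ : π.range.FiniteIndex) {s : D} {N : ℤ}
    (hN : π s = t ^ N) : Star s := by
  intro H hH f j h
  have hr : (π.comp H.subtype).range.FiniteIndex := by
    have e : (π.comp H.subtype).range = H.map π := by
      rw [MonoidHom.range_comp, Subgroup.range_subtype]
    rw [e]
    refine ⟨?_⟩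
    rw [Subgroup.index_map_of_injective _ hinj]
    exact mul_ne_zero hH.index_ne_zero hπ.index_ne_zero
  refine hs.apply (π.comp H.subtype) hr f (fun z hz => ?_) (j := N * j) ?_
  · have : z = 1 := Subtype.ext (hinj (by simpa using hz))
    rw [this, map_one]
  · simp [hN, zpow_mul]

/-- (*) passes to powers. -/
theorem Star.zpow {t : C} (hs : Star t) (N : ℤ) : Star (t ^ N) :=
  hs.comap (MonoidHom.id C) Function.injective_id
    (by rw [MonoidHom.range_eq_top.2 Function.surjective_id]; infer_instance) rfl

theorem Star.pow {t : C} (hs : Star t) (N : ℕ) : Star (t ^ N) := by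
  rw [← zpow_natCast]
  exact hs.zpow N

/-- (*) passes to a finite index subgroup containing a power of `t`. -/
theorem Star.subgroup {t : C} (hs : Star t) (H : Subgroup C) (hH : H.FiniteIndex) {N : ℤ}
    (h : t ^ N ∈ H) : Star (⟨t ^ N, h⟩ : H) :=
  hs.comap H.subtype H.subtype_injective (by rwa [Subgroup.range_subtype]) rfl

/-- (*) pushes forward along any homomorphism. -/
theorem Star.map {t : C} (hs : Star t) {D : Type} [Group D] (π : C →* D) : Star (π t) := by
  intro H hH f j h
  have hmem : t ^ j ∈ H.comap π := by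
    rw [Subgroup.mem_comap, map_zpow]
    exact h
  have hfi : (H.comap π).FiniteIndex := by
    refine ⟨?_⟩
    rw [Subgroup.index_comap]
    exact Subgroup.FiniteIndex.index_ne_zero
  have := hs (H.comap π) hfi (f.comp (π.subgroupComap H)) j hmem
  rw [← this, MonoidHom.comp_apply]
  congr 1
  exact Subtype.ext (map_zpow π t j).symm

/-- (*) for additive integer or real valued functions: a function `ℓ` additive on a finite index
subgroup `H` vanishes on the powers of `t` in `H`. -/
theorem Star.additive {t : C} (hs : Star t) (H : Subgroup C) (hH : H.FiniteIndex) (ℓ : C → ℝ)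
    (hadd : ∀ a ∈ H, ∀ b ∈ H, ℓ (a * b) = ℓ a + ℓ b) {j : ℤ} (h : t ^ j ∈ H) :
    ℓ (t ^ j) = 0 := by
  let f : H →* Multiplicative ℝ := MonoidHom.mk' (fun a => Multiplicative.ofAdd (ℓ a))
    (fun a b => by rw [← ofAdd_add, ← hadd _ a.2 _ b.2]; rfl)
  exact Multiplicative.ofAdd.injective (hs H hH f j h)

/-- The lifted form used for an extension `π : E → C`: `ℓ` is additive on a subgroup `Z` of `E`
whose image has finite index and vanishes on `Z ∩ ker π`; then `ℓ` vanishes on each `z ∈ Z`
mapping to a power of `t`. -/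
theorem Star.additive_lift {t : C} (hs : Star t) {E : Type*} [Group E] (π : E →* C)
    (Z : Subgroup E) (hZ : (Z.map π).FiniteIndex) (ℓ : E → ℝ)
    (hadd : ∀ a ∈ Z, ∀ b ∈ Z, ℓ (a * b) = ℓ a + ℓ b)
    (hker : ∀ a ∈ Z, π a = 1 → ℓ a = 0) {z : E} (hz : z ∈ Z) {j : ℤ} (hj : π z = t ^ j) :
    ℓ z = 0 := by
  let f : Z →* Multiplicative ℝ := MonoidHom.mk' (fun a => Multiplicative.ofAdd (ℓ a))
    (fun a b => by rw [← ofAdd_add, ← hadd _ a.2 _ b.2]; rfl)
  have hr : (π.comp Z.subtype).range.FiniteIndex := by
    rwa [MonoidHom.range_comp, Subgroup.range_subtype]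
  have := hs.apply (π.comp Z.subtype) hr f
    (fun a ha => congrArg Multiplicative.ofAdd (hker a a.2 ha)) (z := ⟨z, hz⟩) hj
  exact Multiplicative.ofAdd.injective this

end Pool.Agent.MP_3ce0a0_al.Q2T15
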