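import Pool.Agent.MP_3ce0a0_al.Q2T15.Basic
import Pool.Agent.MP_3ce0a0_al.Q2T15.Star

/-! (G1): a twist lies in the commutator subgroup of its centraliser. -/

namespace Pool.Agent.MP_3ce0a0_al.Q2T15

open Pool.Agent.MP_3ce0a0_al.H79

variable {α : Type}

/-- A twist at another letter by a word fixed by `t = tw h d` commutes with `t`. -/
theorem commute_tw_of_fix {h k : α × Bool} (hne : k.1 ≠ h.1) {d c : FreeGroup α}
    (hd : d ∈ std ({k.1}ᶜ : Set α)) (hc : c ∈ std ({k.1}ᶜ : Set α)) (hfix : tw h d c = c) :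
    Commute (tw k c) (tw h d) := by
  have := tw_conj_tw (h := k) (k := h) hne hd hc
  rw [hfix, mul_inv_eq_iff_eq_mul] at this
  exact this.symm

/-- A twist by a word `e` without `y, y'` is a commutator of twists by `y'` and by `e`. -/
theorem tw_eq_commutator {y y' : α} (hy : y ≠ y') (s : Bool) {e : FreeGroup α}
    (he : e ∈ std ({y}ᶜ : Set α)) :
    tw (y, s) e = (tw (y, s) (FreeGroup.of y'))⁻¹ *
      (tw (y', true) e * tw (y, s) (FreeGroup.of y') * (tw (y', true) e)⁻¹) ∨
      e ∉ std ({y'}ᶜ : Set α) := by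
  by_cases he' : e ∈ std ({y'}ᶜ : Set α)
  · left
    rw [tw_conj_tw (h := (y, s)) (k := (y', true)) hy he (of_mem_std_compl hy.symm),
      tw_true he', map_mul, inv_mul_cancel_left]
  · exact Or.inr he'

theorem g1_true {x y y' : α} (hxy : x ≠ y) (hxy' : x ≠ y') (hyy' : y ≠ y') {d : FreeGroup α}
    (hd : d ∈ std ({x, y, y'}ᶜ : Set α)) :
    tw (x, true) d ∈ ⁅Subgroup.centralizer {tw (x, true) d},
      Subgroup.centralizer {tw (x, true) d}⁆ := by
  have hx0 : x ∉ ({x, y, y'}ᶜ : Set α) := by simp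
  have hdx : d ∈ std ({x}ᶜ : Set α) := mem_std_compl hx0 hd
  have hdy : d ∈ std ({y}ᶜ : Set α) := mem_std_compl (by simp) hd
  have hdy' : d ∈ std ({y'}ᶜ : Set α) := mem_std_compl (by simp) hd
  set t := tw (x, true) d with ht
  set C := Subgroup.centralizer {t} with hC
  have hmem : ∀ {g}, Commute g t → g ∈ C := fun hg =>
    Subgroup.mem_centralizer_singleton_iff.2 hg.eq
  set e := FreeGroup.of x * d * (FreeGroup.of x)⁻¹ with he
  have hey : e ∈ std ({y}ᶜ : Set α) :=
    mul_mem (mul_mem (of_mem_std_compl hxy) hdy) (inv_mem (of_mem_std_compl hxy))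
  have hey' : e ∈ std ({y'}ᶜ : Set α) :=
    mul_mem (mul_mem (of_mem_std_compl hxy') hdy') (inv_mem (of_mem_std_compl hxy'))
  have htd : t d = d := tw_std (x, true) d hdx
  have htx : t (FreeGroup.of x) = FreeGroup.of x * d := tw_true hdx
  have hte : t e = e := by
    rw [he, map_mul, map_mul, map_inv, htx, htd]
    group
  have hty' : t (FreeGroup.of y') = FreeGroup.of y' := tw_of_ne (x, true) d hxy'.symm
  have c1 : ∀ s, tw (y, s) e ∈ C := fun s =>
    hmem (commute_tw_of_fix (h := (x, true)) (k := (y, s)) hxy.symm hdy hey hte)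
  have c2 : ∀ s, tw (y, s) (FreeGroup.of y') ∈ C := fun s =>
    hmem (commute_tw_of_fix (h := (x, true)) (k := (y, s)) hxy.symm hdy
      (of_mem_std_compl hyy'.symm) hty')
  have c3 : tw (y', true) e ∈ C :=
    hmem (commute_tw_of_fix (h := (x, true)) (k := (y', true)) hxy'.symm hdy' hey' hte)
  have c4 : tw (x, false) (FreeGroup.of y)⁻¹ ∈ C :=
    hmem (tw_commute (I := {x}ᶜ) (by simp) (by simp) (by simp)
      (inv_mem (of_mem_std_compl hxy.symm)) hdx)
  have comm : ∀ {a b}, a ∈ C → b ∈ C → a⁻¹ * (b * a * b⁻¹) ∈ ⁅C, C⁆ := by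
    intro a b ha hb
    have := Subgroup.commutator_mem_commutator (inv_mem ha) hb
    rw [commutatorElement_def, inv_inv] at this
    simpa only [mul_assoc] using this
  have d1 : ∀ s, tw (y, s) e ∈ ⁅C, C⁆ := fun s => by
    rw [(tw_eq_commutator hyy' s hey).resolve_right (not_not.2 hey')]
    exact comm (c2 s) c3
  have d2 := comm c4 (c1 true)
  set i := tw (x, false) (FreeGroup.of y)⁻¹ with hi
  set a := tw (y, true) e with ha
  set a' := tw (y, false) e with ha'
  have hyx : (FreeGroup.of y)⁻¹ ∈ std ({x}ᶜ : Set α) := inv_mem (of_mem_std_compl hxy.symm)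
  have ix : i (FreeGroup.of x) = FreeGroup.of y * FreeGroup.of x := by
    rw [hi, tw_false hyx, inv_inv]
  have iy : i (FreeGroup.of y) = FreeGroup.of y := tw_of_ne (x, false) _ hxy.symm
  have id' : i d = d := tw_std (x, false) _ hdx
  have ay : a (FreeGroup.of y) = FreeGroup.of y * e := tw_true hey
  have ax : a (FreeGroup.of x) = FreeGroup.of x := tw_of_ne (y, true) _ hxy
  have ae : a e = e := tw_std (y, true) _ hey
  have a'y : a' (FreeGroup.of y) = e⁻¹ * FreeGroup.of y := tw_false hey
  have a'x : a' (FreeGroup.of x) = FreeGroup.of x := tw_of_ne (y, false) _ hxy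
  have hty : t (FreeGroup.of y) = FreeGroup.of y := tw_of_ne (x, true) d hxy.symm
  have a'd : a' d = d := tw_std (y, false) _ hdy
  have ad : a d = d := tw_std (y, true) _ hdy
  have rel : i * t = a * i * a' := by
    refine aut_ext fun z => ?_
    simp only [MulAut.mul_apply]
    by_cases hzx : z = x
    · subst hzx
      rw [htx, a'x, map_mul, ix, id', map_mul, ay, ax, he]
      group
    · by_cases hzy : z = y
      · subst hzy
        rw [hty, iy, a'y, he]
        simp only [map_mul, map_inv, ix, iy, id', ay, ax, ad]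
        rw [he]
        group
      · rw [ht, hi, ha, ha', tw_of_ne (x, true) _ hzx, tw_of_ne (x, false) _ hzx,
          tw_of_ne (y, false) _ hzy, tw_of_ne (x, false) _ hzx, tw_of_ne (y, true) _ hzy]
  have fin : t = i⁻¹ * (a * i * a⁻¹) * (a * a') := by
    rw [← inv_mul_cancel_left i t, rel]
    group
  rw [fin]
  exact mul_mem d2 (mul_mem (d1 true) (d1 false))

/-! ### Signed permutations -/

open Classical in
/-- The endomorphism inverting the letter `x`. -/
noncomputable def flipEnd (x : α) : FreeGroup α →* FreeGroup α :=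
  FreeGroup.lift fun z => if z = x then (FreeGroup.of z)⁻¹ else FreeGroup.of z

theorem flipEnd_comp (x : α) : (flipEnd x).comp (flipEnd x) = MonoidHom.id _ := by
  ext z
  by_cases hz : z = x
  · simp [flipEnd, hz]
  · simp [flipEnd, hz]

/-- The automorphism inverting the letter `x`. -/
noncomputable def flip (x : α) : MulAut (FreeGroup α) :=
  MonoidHom.toMulEquiv (flipEnd x) (flipEnd x) (flipEnd_comp x) (flipEnd_comp x)

theorem flip_self (x : α) : flip x (FreeGroup.of x) = (FreeGroup.of x)⁻¹ := by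
  simp [flip, flipEnd]

theorem flip_of_ne {x z : α} (hz : z ≠ x) : flip x (FreeGroup.of z) = FreeGroup.of z := by
  simp [flip, flipEnd, hz]

theorem flip_std {x : α} {w : FreeGroup α} (hw : w ∈ std ({x}ᶜ : Set α)) : flip x w = w :=
  aut_fix_std (fun _ hz => flip_of_ne hz) hw

theorem flip_mul_self (x : α) : flip x * flip x = 1 := by
  ext w
  exact DFunLike.congr_fun (flipEnd_comp x) w

theorem flip_mem_std {I : Set α} (x : α) {w : FreeGroup α} (hw : w ∈ std I) :
    flip x w ∈ std I := by
  refine aut_mem_std (fun z hz => ?_) hw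
  by_cases h : z = x
  · subst h
    rw [flip_self]
    exact inv_mem (of_mem_std hz)
  · rw [flip_of_ne h]
    exact of_mem_std hz

/-- Inverting a letter exchanges its two ends. -/
theorem flip_conj_tw (x : α) (s : Bool) {d : FreeGroup α} (hd : d ∈ std ({x}ᶜ : Set α)) :
    flip x * tw (x, s) d * (flip x)⁻¹ = tw (x, !s) d := by
  rw [mul_inv_eq_iff_eq_mul]
  refine aut_ext fun z => ?_
  rw [MulAut.mul_apply, MulAut.mul_apply]
  by_cases hz : z = x
  · subst hz
    cases s
    · rw [tw_false hd, flip_self, map_mul, map_inv, map_inv, flip_self, flip_std hd,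
        Bool.not_false, tw_true hd, mul_inv_rev]
    · rw [tw_true hd, flip_self, map_mul, map_inv, flip_self, flip_std hd, Bool.not_true,
        tw_false hd, mul_inv_rev, inv_inv]
  · rw [tw_of_ne (x, s) _ hz, flip_of_ne hz, tw_of_ne (x, !s) _ hz]

/-- Inverting another letter acts on the twisting word only. -/
theorem flip_conj_tw_of_ne {x : α} {h : α × Bool} (hne : h.1 ≠ x) {d : FreeGroup α}
    (hd : d ∈ std ({h.1}ᶜ : Set α)) : flip x * tw h d * (flip x)⁻¹ = tw h (flip x d) :=
  conj_tw (flip_of_ne hne) (fun _ hz => flip_mem_std x (of_mem_std hz)) hd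

/-- The automorphism permuting the letters. -/
def permAut (σ : Equiv.Perm α) : MulAut (FreeGroup α) := FreeGroup.freeGroupCongr σ

theorem permAut_of (σ : Equiv.Perm α) (x : α) :
    permAut σ (FreeGroup.of x) = FreeGroup.of (σ x) := by
  simp [permAut]

theorem permAut_mem_std (σ : Equiv.Perm α) {I : Set α} {w : FreeGroup α} (hw : w ∈ std I) :
    permAut σ w ∈ std (σ '' I) :=
  aut_mem_std (fun x hx => by rw [permAut_of]; exact of_mem_std ⟨x, hx, rfl⟩) hw

theorem permAut_fix (σ : Equiv.Perm α) {I : Set α} (hσ : ∀ x ∈ I, σ x = x) {w : FreeGroup α}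
    (hw : w ∈ std I) : permAut σ w = w :=
  aut_fix_std (fun x hx => by rw [permAut_of, hσ x hx]) hw

/-- A permutation of the letters permutes the labels. -/
theorem permAut_conj_tw (σ : Equiv.Perm α) (y : α) (s : Bool) {b : FreeGroup α}
    (hb : b ∈ std ({y}ᶜ : Set α)) :
    permAut σ * tw (y, s) b * (permAut σ)⁻¹ = tw (σ y, s) (permAut σ b) := by
  have hb' : permAut σ b ∈ std ({σ y}ᶜ : Set α) :=
    aut_mem_std (fun x hx => by
      rw [permAut_of]
      exact of_mem_std_compl fun e => hx (σ.injective e)) hb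
  rw [mul_inv_eq_iff_eq_mul]
  refine aut_ext fun z => ?_
  rw [MulAut.mul_apply, MulAut.mul_apply, permAut_of]
  by_cases hz : z = y
  · subst hz
    cases s
    · rw [tw_false hb, tw_false hb', map_mul, map_inv, permAut_of]
    · rw [tw_true hb, tw_true hb', map_mul, permAut_of]
  · rw [tw_of_ne (y, s) _ hz, permAut_of, tw_of_ne (σ y, s) _ fun e => hz (σ.injective e)]

/-! ### (G1) for both ends, and property (*) in `Out` -/

theorem mem_commutator_map {G H : Type} [Group G] [Group H] (π : G →* H) {t : G}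
    (ht : t ∈ ⁅Subgroup.centralizer {t}, Subgroup.centralizer {t}⁆) :
    π t ∈ ⁅Subgroup.centralizer {π t}, Subgroup.centralizer {π t}⁆ := by
  have hle : (Subgroup.centralizer {t}).map π ≤ Subgroup.centralizer {π t} := by
    rintro _ ⟨g, hg, rfl⟩
    rw [Subgroup.mem_centralizer_singleton_iff, ← map_mul, ← map_mul,
      Subgroup.mem_centralizer_singleton_iff.1 hg]
  refine Subgroup.commutator_mono hle hle ?_
  rw [← Subgroup.map_commutator]
  exact ⟨t, ht, rfl⟩

/-- (G1) in `Aut`. -/
theorem g1_aut {h : α × Bool} {y y' : α} (hxy : h.1 ≠ y) (hxy' : h.1 ≠ y') (hyy' : y ≠ y')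
    {d : FreeGroup α} (hd : d ∈ std ({h.1, y, y'}ᶜ : Set α)) :
    tw h d ∈ ⁅Subgroup.centralizer {tw h d}, Subgroup.centralizer {tw h d}⁆ := by
  obtain ⟨x, s⟩ := h
  cases s
  · have hdx : d ∈ std ({x}ᶜ : Set α) := mem_std_compl (by simp) hd
    have := mem_commutator_map (MulAut.conj (flip x)).toMonoidHom (g1_true hxy hxy' hyy' hd)
    have e : (MulAut.conj (flip x)).toMonoidHom (tw (x, true) d) = tw (x, false) d :=
      flip_conj_tw x true hdx
    rwa [e] at this
  · exact g1_true hxy hxy' hyy' hd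

/-- (G1) in `Out`. -/
theorem g1_out {h : α × Bool} {y y' : α} (hxy : h.1 ≠ y) (hxy' : h.1 ≠ y') (hyy' : y ≠ y')
    {d : FreeGroup α} (hd : d ∈ std ({h.1, y, y'}ᶜ : Set α)) :
    tau h d ∈ ⁅Subgroup.centralizer {tau h d}, Subgroup.centralizer {tau h d}⁆ :=
  mem_commutator_map (mkOut _) (g1_aut hxy hxy' hyy' hd)

theorem self_mem_centralizer {G : Type} [Group G] (t : G) : t ∈ Subgroup.centralizer {t} :=
  Subgroup.mem_centralizer_singleton_iff.2 rfl

/-- An element of the commutator subgroup of its centraliser has (*) in its centraliser. -/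
theorem star_centralizer {G : Type} [Group G] {t : G}
    (ht : t ∈ ⁅Subgroup.centralizer {t}, Subgroup.centralizer {t}⁆) :
    Star (⟨t, self_mem_centralizer t⟩ : Subgroup.centralizer {t}) := by
  refine star_of_central (fun g => Subtype.ext ?_) ?_
  · exact Subgroup.mem_centralizer_singleton_iff.1 g.2
  · rw [← Subgroup.map_subtype_commutator] at ht
    obtain ⟨u, hu, hut⟩ := ht
    have : u = ⟨t, self_mem_centralizer t⟩ := Subtype.ext hut
    exact this ▸ hu

/-- (G1) with transfer, for the image of a twist under any homomorphism `ρ` of `Out`: (*) holds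
in the centraliser of `ρ (tau h d)` in the target group. -/
theorem star_tau {H : Type} [Group H] (ρ : Out (FreeGroup α) →* H) {h : α × Bool} {y y' : α}
    (hxy : h.1 ≠ y) (hxy' : h.1 ≠ y') (hyy' : y ≠ y') {d : FreeGroup α}
    (hd : d ∈ std ({h.1, y, y'}ᶜ : Set α)) :
    Star (⟨ρ (tau h d), self_mem_centralizer _⟩ : Subgroup.centralizer {ρ (tau h d)}) :=
  star_centralizer (mem_commutator_map ρ (g1_out hxy hxy' hyy' hd))

/-- The same with a standard factor `std I` and three letters outside `I`. -/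
theorem star_tau' {H : Type} [Group H] (ρ : Out (FreeGroup α) →* H) {I : Set α} {h : α × Bool}
    {y y' : α} (hxy : h.1 ≠ y) (hxy' : h.1 ≠ y') (hyy' : y ≠ y') (hx : h.1 ∉ I) (hy : y ∉ I)
    (hy' : y' ∉ I) {d : FreeGroup α} (hd : d ∈ std I) :
    Star (⟨ρ (tau h d), self_mem_centralizer _⟩ : Subgroup.centralizer {ρ (tau h d)}) := by
  refine star_tau ρ hxy hxy' hyy' (std_mono ?_ hd)
  rintro z hz (rfl | rfl | rfl)
  exacts [hx hz, hy hz, hy' hz]

end Pool.Agent.MP_3ce0a0_al.Q2T15
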