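import Pool.Agent.MP_3ce0a0_al.Q2T15.G

/-! A standard factor is free on its letters; its automorphisms extend by the identity. -/

namespace Pool.Agent.MP_3ce0a0_al.Q2T15

open Pool.Agent.MP_3ce0a0_al.H79

variable {α : Type}

/-- The inclusion of the free group on `I`. -/
def incl (I : Set α) : FreeGroup I →* FreeGroup α := FreeGroup.map Subtype.val

theorem incl_of (I : Set α) (x : I) : incl I (FreeGroup.of x) = FreeGroup.of x.1 := by
  simp [incl]

theorem incl_injective (I : Set α) : Function.Injective (incl I) :=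
  FreeGroup.map_injective Subtype.val_injective

theorem incl_range (I : Set α) : (incl I).range = std I := by
  refine le_antisymm ?_ ((Subgroup.closure_le _).2 ?_)
  · rintro _ ⟨w, rfl⟩
    refine map_mem_of_std (I := Set.univ) (fun x _ => ?_) (by rw [std_univ]; trivial)
    rw [incl_of]
    exact of_mem_std x.2
  · rintro _ ⟨x, hx, rfl⟩
    exact ⟨FreeGroup.of ⟨x, hx⟩, incl_of I _⟩

theorem incl_mem (I : Set α) (w : FreeGroup I) : incl I w ∈ std I :=
  incl_range I ▸ ⟨w, rfl⟩

/-- A standard factor is free on its letters. -/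
noncomputable def stdEquiv (I : Set α) : FreeGroup I ≃* std I :=
  (MonoidHom.ofInjective (incl_injective I)).trans (MulEquiv.subgroupCongr (incl_range I))

theorem stdEquiv_coe (I : Set α) (w : FreeGroup I) : (stdEquiv I w : FreeGroup α) = incl I w :=
  rfl

theorem stdEquiv_of (I : Set α) (x : I) :
    stdEquiv I (FreeGroup.of x) = ⟨FreeGroup.of x.1, of_mem_std x.2⟩ :=
  Subtype.ext (incl_of I x)

theorem std_fg {I : Set α} (hI : I.Finite) : (std I).FG :=
  (Subgroup.fg_iff _).2 ⟨_, rfl, hI.image _⟩

instance (I : Set α) [Finite I] : Group.FG (std I) :=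
  (Group.fg_iff_subgroup_fg _).2 (std_fg (Set.toFinite I))

/-- Homomorphisms from `std I` are determined by the letters. -/
theorem std_hom_ext {M : Type*} [Group M] {I : Set α} {f g : std I →* M}
    (h : ∀ x (hx : x ∈ I), f ⟨FreeGroup.of x, of_mem_std hx⟩ = g ⟨FreeGroup.of x, of_mem_std hx⟩) :
    f = g := by
  have : f.comp (stdEquiv I).toMonoidHom = g.comp (stdEquiv I).toMonoidHom := by
    ext x
    simpa [stdEquiv_of] using h x.1 x.2
  ext w
  obtain ⟨v, rfl⟩ := (stdEquiv I).surjective w
  exact DFunLike.congr_fun this v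

/-- The retraction with values in the subgroup. -/
noncomputable def retS (I : Set α) : FreeGroup α →* std I := (ret I).codRestrict _ (ret_mem I)

theorem retS_coe (I : Set α) (w : std I) : retS I w = w := Subtype.ext (ret_eq_self w.2)

open Classical in
/-- Extension of an endomorphism of `std I` by the identity on the other letters. -/
noncomputable def extEnd (I : Set α) (γ : std I →* std I) : FreeGroup α →* FreeGroup α :=
  FreeGroup.lift fun x => if hx : x ∈ I then (γ ⟨FreeGroup.of x, of_mem_std hx⟩ : FreeGroup α)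
    else FreeGroup.of x

theorem extEnd_of_not_mem {I : Set α} (γ : std I →* std I) {x : α} (hx : x ∉ I) :
    extEnd I γ (FreeGroup.of x) = FreeGroup.of x := by
  simp [extEnd, hx]

theorem extEnd_coe {I : Set α} (γ : std I →* std I) (w : std I) :
    extEnd I γ w = (γ w : FreeGroup α) := by
  have : (extEnd I γ).comp (std I).subtype = (std I).subtype.comp γ :=
    std_hom_ext fun x hx => by simp [extEnd, hx]
  exact DFunLike.congr_fun this w

theorem extEnd_comp {I : Set α} (γ δ : std I →* std I) :
    extEnd I (γ.comp δ) = (extEnd I γ).comp (extEnd I δ) := by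
  ext x
  by_cases hx : x ∈ I
  · have e : ∀ ε : std I →* std I, extEnd I ε (FreeGroup.of x)
        = (ε ⟨FreeGroup.of x, of_mem_std hx⟩ : FreeGroup α) :=
      fun ε => extEnd_coe ε ⟨FreeGroup.of x, of_mem_std hx⟩
    rw [MonoidHom.comp_apply, e, e, extEnd_coe, MonoidHom.comp_apply]
  · simp [extEnd_of_not_mem _ hx]

theorem extEnd_id (I : Set α) : extEnd I (MonoidHom.id _) = MonoidHom.id _ := by
  ext x
  by_cases hx : x ∈ I
  · exact extEnd_coe _ ⟨FreeGroup.of x, of_mem_std hx⟩
  · simp [extEnd_of_not_mem _ hx]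

/-- Extension of an automorphism of `std I` by the identity on the other letters. -/
noncomputable def extA (I : Set α) : MulAut (std I) →* MulAut (FreeGroup α) where
  toFun γ := MonoidHom.toMulEquiv (extEnd I γ.toMonoidHom) (extEnd I γ.symm.toMonoidHom)
    (by rw [← extEnd_comp, ← extEnd_id]; congr 1; ext w; simp)
    (by rw [← extEnd_comp, ← extEnd_id]; congr 1; ext w; simp)
  map_one' := by
    ext w
    exact DFunLike.congr_fun (extEnd_id I) w
  map_mul' γ δ := by
    ext w
    exact DFunLike.congr_fun (extEnd_comp γ.toMonoidHom δ.toMonoidHom) w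

theorem extA_coe {I : Set α} (γ : MulAut (std I)) (w : std I) :
    extA I γ w = (γ w : FreeGroup α) := extEnd_coe γ.toMonoidHom w

theorem extA_mem {I : Set α} (γ : MulAut (std I)) {w : FreeGroup α} (hw : w ∈ std I) :
    extA I γ w = (γ ⟨w, hw⟩ : FreeGroup α) := extA_coe γ ⟨w, hw⟩

theorem extA_of_not_mem {I : Set α} (γ : MulAut (std I)) {x : α} (hx : x ∉ I) :
    extA I γ (FreeGroup.of x) = FreeGroup.of x := extEnd_of_not_mem _ hx

theorem extA_mem_NA {I : Set α} (γ : MulAut (std I)) : extA I γ ∈ NA I := by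
  refine mem_NA_of (fun x hx => extA_of_not_mem γ hx) (fun w hw => ?_) fun w hw => ?_
  · rw [extA_mem γ hw]
    exact Subtype.property _
  · rw [← map_inv, extA_mem _ hw]
    exact Subtype.property _

/-- Restriction of an element of `NA I` to `std I`. -/
def resA (I : Set α) : NA I →* MulAut (std I) where
  toFun γ :=
    { toFun := fun w => ⟨γ.1 w, NA_mem γ.2 w.2⟩
      invFun := fun w => ⟨γ.1⁻¹ w, NA_mem (inv_mem γ.2) w.2⟩
      left_inv := fun w => Subtype.ext (by simp)
      right_inv := fun w => Subtype.ext (by simp)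
      map_mul' := fun a b => Subtype.ext (by simp) }
  map_one' := rfl
  map_mul' _ _ := rfl

theorem resA_coe {I : Set α} (γ : NA I) (w : std I) : (resA I γ w : FreeGroup α) = γ.1 w := rfl

theorem extA_resA {I : Set α} (γ : NA I) : extA I (resA I γ) = γ.1 := by
  refine aut_ext fun x => ?_
  by_cases hx : x ∈ I
  · exact extA_mem _ (of_mem_std hx)
  · rw [extA_of_not_mem _ hx, NA_of γ.2 hx]

theorem resA_extA {I : Set α} (γ : MulAut (std I)) : resA I ⟨extA I γ, extA_mem_NA γ⟩ = γ := by
  ext w
  exact extA_coe γ w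

/-- Conjugation by `g` on `std I`, the identity on the other letters. -/
noncomputable def innA (I : Set α) : std I →* MulAut (FreeGroup α) :=
  (extA I).comp MulAut.conj

theorem innA_mem_NA {I : Set α} (g : std I) : innA I g ∈ NA I := extA_mem_NA _

theorem innA_apply {I : Set α} (g : std I) {w : FreeGroup α} (hw : w ∈ std I) :
    innA I g w = g * w * (g : FreeGroup α)⁻¹ := extA_mem _ hw

/-- An element of `NA I` preserves the part in `std I` of a characteristic subgroup. -/
theorem NA_mem_char {I : Set α} {H : Subgroup (std I)} [hH : H.Characteristic]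
    {γ : MulAut (FreeGroup α)} (hγ : γ ∈ NA I) {w : std I} (hw : w ∈ H) :
    (⟨γ w, NA_mem hγ w.2⟩ : std I) ∈ H :=
  Subgroup.characteristic_iff_map_le.1 hH (resA I ⟨γ, hγ⟩) ⟨w, hw, rfl⟩

end Pool.Agent.MP_3ce0a0_al.Q2T15
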