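import Pool.Agent.MP_3ce0a0_al.Q2T15.G1

/-! (G2) slides, (G3) the product of one-letter conjugations, (G4) normalisation, injectivity. -/

namespace Pool.Agent.MP_3ce0a0_al.Q2T15

open Pool.Agent.MP_3ce0a0_al.H79

variable {α : Type}

/-! ### (G2) -/

/-- (G2) The slide `tw j y` conjugates the element with twists `(b₁, b₂, b₃ = b₁)` to the element
with twists `(b₁, b₂, b₃ = b₂)`; `j` is any end of a letter other than `y`. -/
theorem slide {I : Set α} {y : α} {j : α × Bool} (hjy : j.1 ≠ y) (hy : y ∉ I) (hj : j.1 ∉ I)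
    {b₁ b₂ : FreeGroup α} (h1 : b₁ ∈ std I) (h2 : b₂ ∈ std I) :
    (tw j (FreeGroup.of y))⁻¹ * (tw (y, false) b₁ * tw (y, true) b₂ * tw j b₁) *
      tw j (FreeGroup.of y) = tw (y, false) b₁ * tw (y, true) b₂ * tw j b₂ := by
  have h1j := mem_std_compl hj h1
  have h2j := mem_std_compl hj h2
  have h1y := mem_std_compl hy h1
  have h2y := mem_std_compl hy h2
  have hyj : FreeGroup.of y ∈ std ({j.1}ᶜ : Set α) := of_mem_std_compl hjy.symm
  have e1 := tw_conj_tw (h := j) (k := (y, true)) hjy h2j hyj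
  rw [tw_true h2y] at e1
  have e2 := tw_conj_tw (h := j) (k := (y, false)) hjy h1j (mul_mem hyj h2j)
  have hin : tw (y, false) b₁ (FreeGroup.of y * b₂) = b₁⁻¹ * FreeGroup.of y * b₂ := by
    rw [map_mul, tw_false h1y, tw_std (y, false) b₁ h2y]
  rw [hin, ← e1, map_mul, map_mul, map_inv] at e2
  have hne : ∀ s, (y, s) ≠ j := fun s e => hjy (congrArg Prod.fst e).symm
  have c1 := tw_commute (hne false) hy hj h1 h1
  have c2 := tw_commute (hne true) hy hj h2 h1
  have c3 := tw_commute (hne false) hy hj h1 h2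
  have c4 := tw_commute (hne true) hy hj h2 h2
  set A := tw (y, false) b₁
  set B := tw (y, true) b₂
  set P := tw j (FreeGroup.of y)
  set U := tw j b₁
  set V := tw j b₂
  have e3 : A * B * P = U⁻¹ * P * V * (A * B) := by
    rw [← e2]
    group
  have c5 : A * B * U = U * (A * B) := (c1.mul_left c2).eq
  have c6 : A * B * V = V * (A * B) := (c3.mul_left c4).eq
  rw [c5, c6, mul_assoc P⁻¹, mul_assoc U, e3]
  group

/-- The slide commutes with the twists of all other labels whose letter is not `y`. -/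
theorem slide_commute {I : Set α} {y : α} {j l : α × Bool} (hjy : j.1 ≠ y) (hly : l.1 ≠ y)
    (hlj : l ≠ j) (hj : j.1 ∉ I) (hl : l.1 ∉ I) {b : FreeGroup α} (hb : b ∈ std I) :
    Commute (tw j (FreeGroup.of y)) (tw l b) :=
  tw_commute (I := insert y I) hlj.symm (by simp [hjy, hj]) (by simp [hly, hl])
    (of_mem_std (Set.mem_insert y I)) (std_mono (Set.subset_insert y I) hb)

/-- (G2) in the form of one conjugating element `ψ`: for an end `(y, s)` and an end `j` of
another letter, `ψ` conjugates `tw (y, s) b` to `tw (y, s) b * tw j b`, conjugates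
`tw (y, !s) b * tw j b` to `tw (y, !s) b`, and commutes with the twists of the other labels. -/
theorem slide_exists {I : Set α} {y : α} (s : Bool) {j : α × Bool} (hjy : j.1 ≠ y) (hy : y ∉ I)
    (hj : j.1 ∉ I) : ∃ ψ : MulAut (FreeGroup α),
      (∀ b ∈ std I, ψ * tw (y, s) b * ψ⁻¹ = tw (y, s) b * tw j b) ∧
      (∀ b ∈ std I, ψ * (tw (y, !s) b * tw j b) * ψ⁻¹ = tw (y, !s) b) ∧
      (∀ l : α × Bool, l.1 ≠ y → l ≠ j → l.1 ∉ I → ∀ b ∈ std I, ψ * tw l b * ψ⁻¹ = tw l b) := by
  cases s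
  · refine ⟨tw j (FreeGroup.of y), fun b hb => ?_, fun b hb => ?_, fun l h1 h2 h3 b hb => ?_⟩
    · have := slide hjy hy hj hb (one_mem _)
      simp only [map_one, mul_one] at this
      conv_lhs => rw [← this]
      group
    · have := slide hjy hy hj (one_mem _) hb
      simp only [map_one, mul_one, one_mul] at this
      rw [Bool.not_false, ← this]
      group
    · rw [(slide_commute hjy h1 h2 hj h3 hb).eq, mul_inv_cancel_right]
  · refine ⟨(tw j (FreeGroup.of y))⁻¹, fun b hb => ?_, fun b hb => ?_,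
      fun l h1 h2 h3 b hb => ?_⟩
    · have := slide hjy hy hj (one_mem _) hb
      simp only [map_one, mul_one, one_mul] at this
      rw [inv_inv, this]
    · have := slide hjy hy hj hb (one_mem _)
      simp only [map_one, mul_one] at this
      rw [inv_inv, Bool.not_true, this]
    · rw [(slide_commute hjy h1 h2 hj h3 hb).inv_left.eq, mul_inv_cancel_right]

/-- (G2) in `Out`. -/
theorem slide_exists_out {I : Set α} {y : α} (s : Bool) {j : α × Bool} (hjy : j.1 ≠ y)
    (hy : y ∉ I) (hj : j.1 ∉ I) : ∃ ψ : Out (FreeGroup α),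
      (∀ b ∈ std I, ψ * tau (y, s) b * ψ⁻¹ = tau (y, s) b * tau j b) ∧
      (∀ b ∈ std I, ψ * (tau (y, !s) b * tau j b) * ψ⁻¹ = tau (y, !s) b) ∧
      (∀ l : α × Bool, l.1 ≠ y → l ≠ j → l.1 ∉ I → ∀ b ∈ std I,
        ψ * tau l b * ψ⁻¹ = tau l b) := by
  obtain ⟨ψ, h1, h2, h3⟩ := slide_exists s hjy hy hj
  refine ⟨mkOut _ ψ, fun b hb => ?_, fun b hb => ?_, fun l a1 a2 a3 b hb => ?_⟩
  · simpa only [tau_apply, multiO_apply, map_mul, map_inv] using
      congrArg (mkOut _) (h1 b hb)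
  · simpa only [tau_apply, multiO_apply, map_mul, map_inv] using
      congrArg (mkOut _) (h2 b hb)
  · simpa only [tau_apply, multiO_apply, map_mul, map_inv] using
      congrArg (mkOut _) (h3 l a1 a2 a3 b hb)

/-- (G2) in `Out`, both coordinates at once. -/
theorem slide_out {I : Set α} {y : α} {j : α × Bool} (hjy : j.1 ≠ y) (hy : y ∉ I)
    (hj : j.1 ∉ I) {b₁ b₂ : FreeGroup α} (h1 : b₁ ∈ std I) (h2 : b₂ ∈ std I) :
    (tau j (FreeGroup.of y))⁻¹ * (tau (y, false) b₁ * tau (y, true) b₂ * tau j b₁) *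
      tau j (FreeGroup.of y) = tau (y, false) b₁ * tau (y, true) b₂ * tau j b₂ := by
  simpa only [tau_apply, multiO_apply, map_mul, map_inv] using
    congrArg (mkOut _) (slide hjy hy hj h1 h2)

/-! ### (G3) -/

/-- The conjugation `z ↦ c z c⁻¹` of the single letter `z`. -/
noncomputable def kap (z : α) (c : FreeGroup α) : MulAut (FreeGroup α) :=
  tw (z, false) c⁻¹ * tw (z, true) c⁻¹

theorem kap_self {z : α} {c : FreeGroup α} (hc : c ∈ std ({z}ᶜ : Set α)) :
    kap z c (FreeGroup.of z) = c * FreeGroup.of z * c⁻¹ := by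
  rw [kap, MulAut.mul_apply, tw_true (inv_mem hc), map_mul, tw_false (inv_mem hc), inv_inv,
    tw_std (z, false) _ (inv_mem hc)]

theorem kap_of_ne {z x : α} (c : FreeGroup α) (hx : x ≠ z) :
    kap z c (FreeGroup.of x) = FreeGroup.of x := by
  rw [kap, MulAut.mul_apply, tw_of_ne (z, true) _ hx, tw_of_ne (z, false) _ hx]

theorem kap_prod_apply {I : Set α} {c : FreeGroup α} (hc : c ∈ std I) (l : List α)
    (hl : l.Nodup) (hI : ∀ z ∈ l, z ∉ I) :
    (∀ x ∈ l, (l.map fun z => kap z c).prod (FreeGroup.of x) = c * FreeGroup.of x * c⁻¹) ∧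
    (∀ x, x ∉ l → (l.map fun z => kap z c).prod (FreeGroup.of x) = FreeGroup.of x) := by
  induction l with
  | nil => simp
  | cons z l ih =>
    obtain ⟨hz, hl'⟩ := List.nodup_cons.1 hl
    obtain ⟨ih1, ih2⟩ := ih hl' fun w hw => hI w (List.mem_cons_of_mem _ hw)
    have hzI : z ∉ I := hI z List.mem_cons_self
    have hcz : kap z c c = c :=
      aut_fix_std (fun x hx => kap_of_ne c (ne_of_mem_of_not_mem hx hzI)) hc
    simp only [List.map_cons, List.prod_cons, MulAut.mul_apply]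
    refine ⟨fun x hx => ?_, fun x hx => ?_⟩
    · rcases List.mem_cons.1 hx with rfl | hx
      · rw [ih2 x hz, kap_self (mem_std_compl hzI hc)]
      · rw [ih1 x hx, map_mul, map_mul, map_inv, hcz, kap_of_ne c (ne_of_mem_of_not_mem hx hz)]
    · rw [ih2 x fun h => hx (List.mem_cons_of_mem _ h),
        kap_of_ne c (ne_of_mem_of_not_mem List.mem_cons_self hx).symm]

/-- (G3) The product of the conjugations of all letters other than `y` by a power of `y` is
inner. -/
theorem kap_prod (y : α) (N : ℤ) (l : List α) (hl : l.Nodup) (hy : ∀ z, z ∈ l ↔ z ≠ y) :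
    (l.map fun z => kap z (FreeGroup.of y ^ N)).prod = MulAut.conj (FreeGroup.of y ^ N) := by
  have hc : FreeGroup.of y ^ N ∈ std ({y} : Set α) :=
    zpow_mem (of_mem_std (Set.mem_singleton y)) N
  obtain ⟨h1, h2⟩ := kap_prod_apply hc l hl fun z hz => (hy z).1 hz
  refine aut_ext fun x => ?_
  rw [MulAut.conj_apply]
  by_cases hx : x = y
  · subst hx
    rw [h2 x fun h => (hy x).1 h rfl]
    group
  · exact h1 x ((hy x).2 hx)

/-- (G3) in `Out`. -/
theorem kap_prod_out (y : α) (N : ℤ) (l : List α) (hl : l.Nodup) (hy : ∀ z, z ∈ l ↔ z ≠ y) :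
    (l.map fun z => tau (z, false) (FreeGroup.of y ^ N)⁻¹ *
      tau (z, true) (FreeGroup.of y ^ N)⁻¹).prod = 1 := by
  have := congrArg (mkOut _) (kap_prod y N l hl hy)
  rw [mkOut_conj, map_list_prod, List.map_map] at this
  exact this

/-! ### (G4) -/

theorem mem_NA {I : Set α} {γ : MulAut (FreeGroup α)} : γ ∈ NA I ↔
    (∀ x, x ∉ I → γ (FreeGroup.of x) = FreeGroup.of x) ∧ ∀ w, γ w ∈ std I ↔ w ∈ std I :=
  Iff.rfl

theorem NA_of {I : Set α} {γ : MulAut (FreeGroup α)} (hγ : γ ∈ NA I) {x : α} (hx : x ∉ I) :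
    γ (FreeGroup.of x) = FreeGroup.of x := hγ.1 x hx

theorem NA_mem {I : Set α} {γ : MulAut (FreeGroup α)} (hγ : γ ∈ NA I) {w : FreeGroup α}
    (hw : w ∈ std I) : γ w ∈ std I := (hγ.2 w).2 hw

theorem mem_NA_of {I : Set α} {γ : MulAut (FreeGroup α)}
    (h1 : ∀ x, x ∉ I → γ (FreeGroup.of x) = FreeGroup.of x)
    (h2 : ∀ w ∈ std I, γ w ∈ std I) (h3 : ∀ w ∈ std I, γ⁻¹ w ∈ std I) : γ ∈ NA I :=
  ⟨h1, fun w => ⟨fun h => by simpa using h3 _ h, h2 w⟩⟩

theorem NA_mono {I J : Set α} (hIJ : I ⊆ J) : NA I ≤ NA J := by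
  have key : ∀ γ ∈ NA I, ∀ w ∈ std J, γ w ∈ std J := by
    intro γ hγ w hw
    refine aut_mem_std (fun x hx => ?_) hw
    by_cases hI : x ∈ I
    · exact std_mono hIJ (NA_mem hγ (of_mem_std hI))
    · rw [NA_of hγ hI]
      exact of_mem_std hx
  intro γ hγ
  exact mem_NA_of (fun x hx => NA_of hγ fun h => hx (hIJ h)) (key γ hγ) (key _ (inv_mem hγ))

/-- A twist of a letter of `I` by a word in `std I` lies in `NA I`. -/
theorem tw_mem_NA {I : Set α} {h : α × Bool} (hh : h.1 ∈ I) {b : FreeGroup α} (hb : b ∈ std I) :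
    tw h b ∈ NA I := by
  refine mem_NA_of (fun x hx => tw_of_ne h b fun e => hx (e ▸ hh))
    (fun w hw => tw_mem_std h hb hw) fun w hw => ?_
  rw [← map_inv]
  exact tw_mem_std h (inv_mem hb) hw

theorem flip_mem_NA {I : Set α} {x : α} (hx : x ∈ I) : flip x ∈ NA I := by
  refine mem_NA_of (fun z hz => flip_of_ne fun e => hz (e ▸ hx))
    (fun w hw => flip_mem_std x hw) fun w hw => ?_
  rw [inv_eq_of_mul_eq_one_right (flip_mul_self x)]
  exact flip_mem_std x hw

/-- (G4) for one label. -/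
theorem NA_conj_tw {I : Set α} {γ : MulAut (FreeGroup α)} (hγ : γ ∈ NA I) {h : α × Bool}
    (hh : h.1 ∉ I) {b : FreeGroup α} (hb : b ∈ std ({h.1}ᶜ : Set α)) :
    γ * tw h b * γ⁻¹ = tw h (γ b) :=
  conj_tw (NA_of hγ hh) (fun _ hz =>
    NA_mem (NA_mono (Set.subset_compl_singleton_iff.2 hh) hγ) (of_mem_std hz)) hb

theorem NA_conj_tau {I : Set α} {γ : MulAut (FreeGroup α)} (hγ : γ ∈ NA I) {h : α × Bool}
    (hh : h.1 ∉ I) {b : FreeGroup α} (hb : b ∈ std ({h.1}ᶜ : Set α)) :
    mkOut _ γ * tau h b * (mkOut _ γ)⁻¹ = tau h (γ b) := by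
  simpa only [tau_apply, multiO_apply, map_mul, map_inv] using
    congrArg (mkOut _) (NA_conj_tw hγ hh hb)

theorem conj_tau {γ : MulAut (FreeGroup α)} {h : α × Bool}
    (h1 : γ (FreeGroup.of h.1) = FreeGroup.of h.1)
    (h2 : ∀ z, z ≠ h.1 → γ (FreeGroup.of z) ∈ std ({h.1}ᶜ : Set α))
    {b : FreeGroup α} (hb : b ∈ std ({h.1}ᶜ : Set α)) :
    mkOut _ γ * tau h b * (mkOut _ γ)⁻¹ = tau h (γ b) := by
  simpa only [tau_apply, multiO_apply, map_mul, map_inv] using
    congrArg (mkOut _) (conj_tw h1 h2 hb)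

/-- (G4) for multitwists. -/
theorem NA_conj_multi {I : Set α} {γ : MulAut (FreeGroup α)} (hγ : γ ∈ NA I)
    {β : α × Bool → FreeGroup α} (hβ : ∀ h, β h ∈ std I) :
    γ * multi I β * γ⁻¹ = multi I fun h => γ (β h) := by
  rw [mul_inv_eq_iff_eq_mul]
  refine aut_ext fun x => ?_
  rw [MulAut.mul_apply, MulAut.mul_apply]
  by_cases hx : x ∈ I
  · rw [multi_of_mem _ hx, multi_std _ (NA_mem hγ (of_mem_std hx))]
  · rw [NA_of hγ hx, multi_of_std hβ hx, multi_of_std (fun h => NA_mem hγ (hβ h)) hx, map_mul,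
      map_mul, map_inv, NA_of hγ hx]

theorem NA_conj_multiO {I : Set α} {γ : MulAut (FreeGroup α)} (hγ : γ ∈ NA I)
    {β : α × Bool → FreeGroup α} (hβ : ∀ h, β h ∈ std I) :
    mkOut _ γ * multiO I β * (mkOut _ γ)⁻¹ = multiO I fun h => γ (β h) := by
  simpa only [tau_apply, multiO_apply, map_mul, map_inv] using
    congrArg (mkOut _) (NA_conj_multi hγ hβ)

/-! ### Injectivity -/

theorem eq_one_of_sandwich {I : Set α} {x : α} (hx : x ∉ I) {a b : FreeGroup α}
    (ha : a ∈ std I) (hb : b ∈ std I) (h : a⁻¹ * FreeGroup.of x * b = FreeGroup.of x) :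
    a = 1 ∧ b = 1 := by
  have h1 := congrArg (ret I) h
  rw [map_mul, map_mul, map_inv, ret_eq_self ha, ret_eq_self hb, ret_of_not_mem hx, mul_one,
    inv_mul_eq_one] at h1
  subst h1
  suffices a = 1 from ⟨this, this⟩
  by_contra hne
  have hfix : ∀ c ∈ std I, c = a⁻¹ * c * a := by
    intro c hc
    have h2 := congrArg (tw (x, true) c) h
    have hcx := mem_std_compl hx hc
    have hax := mem_std_compl hx ha
    rw [map_mul, map_mul, map_inv, tw_std (x, true) c hax, tw_true hcx] at h2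
    have h3 := congrArg (ret I) h2
    simp only [map_mul, map_inv, ret_eq_self ha, ret_eq_self hc, ret_of_not_mem hx,
      one_mul] at h3
    exact h3.symm
  have hI : I.Nonempty := by
    rw [Set.nonempty_iff_ne_empty]
    rintro rfl
    rw [std_empty] at ha
    exact hne ha
  obtain ⟨p, hp⟩ := hI
  have e1 := hfix _ (of_mem_std hp)
  refine hne (inv_eq_one.1 (eq_one_of_commute_two (p := p) (q := x) (fun e => hx (e ▸ hp)) ?_ ?_))
  · rw [inv_inv]
    exact e1.symm
  · rw [inv_inv]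
    exact h

/-- A multitwist with values in `std I` is trivial in `Aut` only if its values at the labels
outside `I` are trivial. -/
theorem multi_eq_one {I : Set α} {β : α × Bool → FreeGroup α} (hβ : ∀ h, β h ∈ std I)
    (h1 : multi I β = 1) {h : α × Bool} (hh : h.1 ∉ I) : β h = 1 := by
  obtain ⟨x, s⟩ := h
  have := multi_of_std hβ hh
  rw [h1, MulAut.one_apply] at this
  obtain ⟨e1, e2⟩ := eq_one_of_sandwich hh (hβ _) (hβ _) this.symm
  cases s
  exacts [e1, e2]

/-- `K(B, L)` embeds in `Out` when `I` has two letters. -/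
theorem multiO_eq_one {I : Set α} {p q : α} (hpq : p ≠ q) (hp : p ∈ I) (hq : q ∈ I)
    {β : α × Bool → FreeGroup α} (hβ : ∀ h, β h ∈ std I) (h1 : multiO I β = 1)
    {h : α × Bool} (hh : h.1 ∉ I) : β h = 1 :=
  multi_eq_one hβ (eq_one_of_mkOut hpq (multi_of_mem β hp) (multi_of_mem β hq) h1) hh

/-- `tau h` is injective on words without the letter of `h`, given two other letters. -/
theorem tau_eq_one {h : α × Bool} {p q : α} (hpq : p ≠ q) (hp : p ≠ h.1) (hq : q ≠ h.1)
    {b : FreeGroup α} (hb : b ∈ std ({h.1}ᶜ : Set α)) (h1 : tau h b = 1) : b = 1 := by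
  have h2 := eq_one_of_mkOut hpq (tw_of_ne h b hp) (tw_of_ne h b hq) h1
  obtain ⟨y, s⟩ := h
  cases s
  · have := tw_false hb
    rw [h2, MulAut.one_apply] at this
    simpa using this
  · have := tw_true hb
    rw [h2, MulAut.one_apply] at this
    simpa using this

/-- `NA I` embeds in `Out` when two letters lie outside `I`. -/
theorem NA_eq_one {I : Set α} {p q : α} (hpq : p ≠ q) (hp : p ∉ I) (hq : q ∉ I)
    {γ : MulAut (FreeGroup α)} (hγ : γ ∈ NA I) (h1 : mkOut _ γ = 1) : γ = 1 :=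
  eq_one_of_mkOut hpq (NA_of hγ hp) (NA_of hγ hq) h1

end Pool.Agent.MP_3ce0a0_al.Q2T15
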