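import Pool.Agent.MP_3ce0a0_al.H79.Defs

/-! Standard factors, labels and twists of a free group. -/

namespace Pool.Agent.MP_3ce0a0_al.Q2T15

open Pool.Agent.MP_3ce0a0_al.H79

variable {α : Type}

/-- The standard factor generated by the letters in `I`. -/
def std (I : Set α) : Subgroup (FreeGroup α) := Subgroup.closure (FreeGroup.of '' I)

open Classical in
/-- The retraction onto `std I` that kills the letters outside `I`. -/
noncomputable def ret (I : Set α) : FreeGroup α →* FreeGroup α :=
  FreeGroup.lift fun x => if x ∈ I then FreeGroup.of x else 1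

theorem ret_of_mem {I : Set α} {x : α} (hx : x ∈ I) :
    ret I (FreeGroup.of x) = FreeGroup.of x := by
  simp [ret, hx]

theorem ret_of_not_mem {I : Set α} {x : α} (hx : x ∉ I) : ret I (FreeGroup.of x) = 1 := by
  simp [ret, hx]

theorem of_mem_std {I : Set α} {x : α} (hx : x ∈ I) : FreeGroup.of x ∈ std I :=
  Subgroup.subset_closure ⟨x, hx, rfl⟩

/-- Two homomorphisms that agree on the letters of `I` agree on `std I`. -/
theorem eq_on_std {M : Type*} [Group M] {I : Set α} {f g : FreeGroup α →* M}
    (h : ∀ x ∈ I, f (FreeGroup.of x) = g (FreeGroup.of x)) {w : FreeGroup α} (hw : w ∈ std I) :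
    f w = g w := by
  refine MonoidHom.eqOn_closure (f := f) (g := g) (s := FreeGroup.of '' I) ?_ hw
  rintro _ ⟨x, hx, rfl⟩
  exact h x hx

/-- A homomorphism sending the letters of `I` into `S` sends `std I` into `S`. -/
theorem map_mem_of_std {M : Type*} [Group M] {I : Set α} {f : FreeGroup α →* M} {S : Subgroup M}
    (h : ∀ x ∈ I, f (FreeGroup.of x) ∈ S) {w : FreeGroup α} (hw : w ∈ std I) : f w ∈ S := by
  have : std I ≤ S.comap f := by
    refine (Subgroup.closure_le _).2 ?_
    rintro _ ⟨x, hx, rfl⟩
    exact h x hx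
  exact this hw

theorem std_univ : std (Set.univ : Set α) = ⊤ := by
  rw [std, Set.image_univ]
  exact FreeGroup.closure_range_of α

theorem ret_mem (I : Set α) (w : FreeGroup α) : ret I w ∈ std I := by
  refine map_mem_of_std (I := Set.univ) (fun x _ => ?_) (by rw [std_univ]; trivial)
  by_cases hx : x ∈ I
  · rw [ret_of_mem hx]
    exact of_mem_std hx
  · rw [ret_of_not_mem hx]
    exact one_mem _

theorem ret_eq_self {I : Set α} {w : FreeGroup α} (hw : w ∈ std I) : ret I w = w :=
  eq_on_std (g := MonoidHom.id _) (fun _ hx => ret_of_mem hx) hw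

open Classical in
/-- The endomorphism fixing the letters of `I` and multiplying the others on both sides. -/
noncomputable def multiEnd (I : Set α) (β : α × Bool → FreeGroup α) :
    FreeGroup α →* FreeGroup α :=
  FreeGroup.lift fun x => if x ∈ I then FreeGroup.of x
    else (ret I (β (x, false)))⁻¹ * FreeGroup.of x * ret I (β (x, true))

theorem multiEnd_of_mem {I : Set α} (β : α × Bool → FreeGroup α) {x : α} (hx : x ∈ I) :
    multiEnd I β (FreeGroup.of x) = FreeGroup.of x := by
  simp [multiEnd, hx]

theorem multiEnd_of_not_mem {I : Set α} (β : α × Bool → FreeGroup α) {x : α} (hx : x ∉ I) :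
    multiEnd I β (FreeGroup.of x)
      = (ret I (β (x, false)))⁻¹ * FreeGroup.of x * ret I (β (x, true)) := by
  simp [multiEnd, hx]

theorem multiEnd_std {I : Set α} (β : α × Bool → FreeGroup α) {w : FreeGroup α}
    (hw : w ∈ std I) : multiEnd I β w = w :=
  eq_on_std (g := MonoidHom.id _) (fun _ hx => multiEnd_of_mem β hx) hw

theorem multiEnd_mul (I : Set α) (β γ : α × Bool → FreeGroup α) :
    multiEnd I (β * γ) = (multiEnd I β).comp (multiEnd I γ) := by
  ext x
  by_cases hx : x ∈ I
  · simp [multiEnd_of_mem _ hx]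
  · simp only [MonoidHom.comp_apply, multiEnd_of_not_mem _ hx, map_mul, map_inv, Pi.mul_apply,
      multiEnd_std β (ret_mem I _)]
    group

theorem multiEnd_one (I : Set α) : multiEnd I 1 = MonoidHom.id _ := by
  ext x
  by_cases hx : x ∈ I
  · simp [multiEnd_of_mem _ hx]
  · simp [multiEnd_of_not_mem _ hx]

/-- The multitwist over the standard factor `std I`: the letters of `I` are fixed, a letter `y`
outside `I` goes to `b₁⁻¹ y b₂`, where `b₁, b₂` are the retractions to `std I` of the values at
the initial end `(y, false)` and at the terminal end `(y, true)`. -/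
noncomputable def multi (I : Set α) : (α × Bool → FreeGroup α) →* MulAut (FreeGroup α) where
  toFun β := MonoidHom.toMulEquiv (multiEnd I β) (multiEnd I β⁻¹)
    (by rw [← multiEnd_mul, inv_mul_cancel, multiEnd_one])
    (by rw [← multiEnd_mul, mul_inv_cancel, multiEnd_one])
  map_one' := by
    ext w
    simp [multiEnd_one]
  map_mul' β γ := by
    ext w
    simp [multiEnd_mul]

open Classical in
/-- The twist of the label `h = (y, s)`: `y ↦ b⁻¹ y` (`s = false`) or `y ↦ y b` (`s = true`),
the other letters fixed; the letter `y` is deleted from the word `b`. -/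
noncomputable def tw (h : α × Bool) : FreeGroup α →* MulAut (FreeGroup α) :=
  (multi {h.1}ᶜ).comp (MonoidHom.mulSingle (fun _ : α × Bool => FreeGroup α) h)

/-- The projection from automorphisms to outer automorphisms. -/
def mkOut (G : Type) [Group G] : MulAut G →* Out G := QuotientGroup.mk' (Inn G)

/-- The outer twist of the label `h`. -/
noncomputable def tau (h : α × Bool) : FreeGroup α →* Out (FreeGroup α) :=
  (mkOut (FreeGroup α)).comp (tw h)

/-- The outer multitwist over `std I`. -/
noncomputable def multiO (I : Set α) : (α × Bool → FreeGroup α) →* Out (FreeGroup α) :=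
  (mkOut (FreeGroup α)).comp (multi I)

/-- The automorphisms that fix the letters outside `I` and preserve `std I`. -/
def NA (I : Set α) : Subgroup (MulAut (FreeGroup α)) where
  carrier := {γ | (∀ x, x ∉ I → γ (FreeGroup.of x) = FreeGroup.of x) ∧
    ∀ w, γ w ∈ std I ↔ w ∈ std I}
  one_mem' := ⟨fun _ _ => rfl, fun _ => Iff.rfl⟩
  mul_mem' := by
    rintro a b ⟨ha, ha'⟩ ⟨hb, hb'⟩
    refine ⟨fun x hx => ?_, fun w => ?_⟩
    · rw [MulAut.mul_apply, hb x hx, ha x hx]
    · rw [MulAut.mul_apply, ha', hb']
  inv_mem' := by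
    rintro a ⟨ha, ha'⟩
    refine ⟨fun x hx => ?_, fun w => ?_⟩
    · rw [MulAut.inv_apply, MulEquiv.symm_apply_eq, ha x hx]
    · rw [← ha', MulAut.apply_inv_self]

/-- Property (*): every real character of a finite index subgroup kills the powers of `t` that
lie in the subgroup. -/
def Star {C : Type} [Group C] (t : C) : Prop :=
  ∀ H : Subgroup C, H.FiniteIndex → ∀ (f : H →* Multiplicative ℝ) (j : ℤ) (h : t ^ j ∈ H),
    f ⟨t ^ j, h⟩ = 1

end Pool.Agent.MP_3ce0a0_al.Q2T15
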